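import Mathlib

namespace Pool.Agent.Results.MP_493565_co.NotRecursive

/-- The type of colours of `k`-tuples after `t` rounds. -/
def Col (k : ℕ) (C : Type) : ℕ → Type
  | 0 => (Fin k → Fin k → Prop × Prop) × (Fin k → C)
  | t + 1 => Col k C t × Multiset (Fin k → Col k C t)

/-- The colour `WL^t_k(S)` in the graph `G` with vertex colouring `c`. -/
def wl {V C : Type} [Fintype V] (G : SimpleGraph V) (c : V → C) (k : ℕ) :
    (t : ℕ) → (Fin k → V) → Col k C t
  | 0, S => (fun i j => (S i = S j, G.Adj (S i) (S j)), fun i => c (S i))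
  | t + 1, S => (wl G c k t S,
      (Finset.univ : Finset V).val.map fun x i => wl G c k t (Function.update S i x))

/-- The first round after which one more round splits no colour class. -/
noncomputable def stableRound {V C : Type} [Fintype V] (G : SimpleGraph V) (c : V → C) (k : ℕ) :
    ℕ :=
  sInf {t | ∀ S S', wl G c k t S = wl G c k t S' → wl G c k (t + 1) S = wl G c k (t + 1) S'}

/-- One downward step: a `t`-tuple gets the multiset of the colours of its extensions. -/
def step {V X : Type} [Fintype V] {t : ℕ} (f : (Fin (t + 1) → V) → X) (S : Fin t → V) :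
    Multiset X :=
  (Finset.univ : Finset V).val.map fun y => f (Fin.snoc S y)

/-- `j`-fold iterated multisets. -/
def DCol : ℕ → Type → Type
  | 0, X => X
  | j + 1, X => DCol j (Multiset X)

/-- `j` downward steps, from `(t+j)`-tuples to `t`-tuples. -/
def down {V : Type} [Fintype V] (t : ℕ) :
    (j : ℕ) → {X : Type} → ((Fin (t + j) → V) → X) → (Fin t → V) → DCol j X
  | 0, _, f => f
  | j + 1, _, f => down t j (step f)

/-- The colour of the vertex `v` given by the `(1+j)`-dimensional method. -/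
noncomputable def vertexColour {V C : Type} [Fintype V] (G : SimpleGraph V) (c : V → C) (j : ℕ)
    (v : V) : DCol j (Col (1 + j) C (stableRound G c (1 + j))) :=
  down 1 j (wl G c (1 + j) (stableRound G c (1 + j))) fun _ => v

/-- The `(1+j)`-dimensional method refines the coloured graph to its orbits. -/
def RefinesToOrbits {V C : Type} [Fintype V] (G : SimpleGraph V) (c : V → C) (j : ℕ) : Prop :=
  ∀ u v, vertexColour G c j u = vertexColour G c j v ↔
    ∃ σ : G ≃g G, (∀ x, c (σ x) = c x) ∧ σ u = v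

open Classical in
/-- The colouring of `G_v`: the vertex `v` gets a new colour. -/
noncomputable def stabilise {V C : Type} (c : V → C) (v : V) (x : V) : Option C :=
  if x = v then none else some (c x)

section general
variable {V C : Type} [Fintype V] (G : SimpleGraph V) (c : V → C)

theorem map_univ_eq {X : Type} (β : V ≃ V) (f g : V → X) (h : ∀ x, f x = g (β x)) :
    (Finset.univ : Finset V).val.map f = (Finset.univ : Finset V).val.map g := by
  conv_rhs => rw [← Finset.univ_map_equiv_to_embedding β, Finset.map_val, Multiset.map_map]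
  exact Multiset.map_congr rfl fun x _ => h x

/-- A relation on tuples of all lengths which is a winning strategy in the bijection game. -/
theorem wl_eq {k : ℕ} (r : (Fin k → V) → (Fin k → V) → Prop)
    (h0 : ∀ S S', r S S' → wl G c k 0 S = wl G c k 0 S')
    (h1 : ∀ S S', r S S' → ∃ β : V ≃ V, ∀ x i,
      r (Function.update S i x) (Function.update S' i (β x))) :
    ∀ t S S', r S S' → wl G c k t S = wl G c k t S' := by
  intro t
  induction t with
  | zero => exact h0
  | succ t ih =>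
    intro S S' h
    obtain ⟨β, hβ⟩ := h1 S S' h
    exact Prod.ext (ih S S' h) (map_univ_eq β _ _ fun x => funext fun i => ih _ _ (hβ x i))

theorem down_eq (t : ℕ) (r : (n : ℕ) → (Fin n → V) → (Fin n → V) → Prop) :
    ∀ (j : ℕ) {X : Type} (f : (Fin (t + j) → V) → X),
      (∀ n < t + j, ∀ S S', r n S S' → ∃ β : V ≃ V, ∀ x,
        r (n + 1) (Fin.snoc S x) (Fin.snoc S' (β x))) →
      (∀ S S', r (t + j) S S' → f S = f S') →
      ∀ S S', r t S S' → down t j f S = down t j f S' := by
  intro j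
  induction j with
  | zero => intro X f _ h; exact h
  | succ j ih =>
    intro X f h1 h2
    refine ih (step f) (fun n hn => h1 n (by omega)) fun S S' h => ?_
    obtain ⟨β, hβ⟩ := h1 (t + j) (by omega) S S' h
    exact map_univ_eq β _ _ fun x => h2 _ _ (hβ x)

theorem down_det (t : ℕ) [Nonempty V] {Y : Type} (g : (Fin t → V) → Y) :
    ∀ (j : ℕ) {X : Type} (f : (Fin (t + j) → V) → X),
      (∀ S S', f S = f S' → g (fun i => S (Fin.castAdd j i)) = g (fun i => S' (Fin.castAdd j i))) →
      ∀ S S', down t j f S = down t j f S' → g S = g S' := by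
  intro j
  induction j with
  | zero => intro X f h; exact h
  | succ j ih =>
    intro X f h
    refine ih (step f) fun S S' e => ?_
    obtain ⟨y⟩ := ‹Nonempty V›
    have h1 : f (Fin.snoc S y) ∈ step f S := Multiset.mem_map_of_mem _ (Finset.mem_univ_val y)
    rw [e] at h1
    obtain ⟨y', -, hy⟩ := Multiset.mem_map.1 h1
    have := h _ _ hy.symm
    have e1 : ∀ (T : Fin (t + j) → V) (z : V) (i : Fin t),
        (Fin.snoc T z : Fin (t + j + 1) → V) (Fin.castAdd (j + 1) i) = T (Fin.castAdd j i) :=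
      fun T z i => Fin.snoc_castSucc (α := fun _ => V) z T (Fin.castAdd j i)
    simpa only [e1] using this

theorem wl_col {k : ℕ} : ∀ t (S S' : Fin k → V), wl G c k t S = wl G c k t S' →
    ∀ i, c (S i) = c (S' i) := by
  intro t
  induction t with
  | zero => intro S S' h i; exact congrFun (congrArg Prod.snd h) i
  | succ t ih => intro S S' h; exact ih S S' (congrArg Prod.fst h)

theorem vc_col (j : ℕ) (u v : V) (h : vertexColour G c j u = vertexColour G c j v) :
    c u = c v := by
  haveI : Nonempty V := ⟨u⟩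
  exact down_det 1 (fun S => c (S 0)) j _ (fun S S' e => wl_col G c _ S S' e _) _ _ h

theorem vc_aut (j : ℕ) (σ : G ≃g G) (hσ : ∀ x, c (σ x) = c x) (u : V) :
    vertexColour G c j u = vertexColour G c j (σ u) := by
  refine down_eq 1 (fun n S S' => S' = σ ∘ S) j _ ?_ ?_ _ _ rfl
  · rintro n - S _ rfl
    exact ⟨σ.toEquiv, fun x => (Fin.comp_snoc σ S x).symm⟩
  · intro S S' h
    refine wl_eq G c (fun S S' => S' = σ ∘ S) ?_ ?_ _ S S' h
    · rintro S _ rfl
      refine Prod.ext ?_ ?_
      · funext a b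
        simp [wl, σ.map_adj_iff]
      · funext a
        simp [wl, hσ]
    · rintro S _ rfl
      exact ⟨σ.toEquiv, fun x i => (Function.comp_update σ S i x).symm⟩

end general

/-! The construction. Base vertices: `Fin m ⊕ Bool`. -/

section construction
variable (m : ℕ)

abbrev B := Fin (m + 2) ⊕ Bool

def badj : B m → B m → Prop
  | Sum.inl x, Sum.inl y => x ≠ y
  | Sum.inl x, Sum.inr b => x = if b then 1 else 0
  | Sum.inr b, Sum.inl x => x = if b then 1 else 0
  | Sum.inr _, Sum.inr _ => False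

instance : DecidableRel (badj m) := fun x y => by
  cases x <;> cases y <;> unfold badj <;> infer_instance

theorem badj_symm {x y : B m} (h : badj m x y) : badj m y x := by
  cases x <;> cases y <;> simp_all [badj, eq_comm]

theorem badj_irrefl (x : B m) : ¬ badj m x x := by
  cases x <;> simp [badj]

/-- admissible labels at the base vertex `x` -/
def ok (x : B m) (a : B m → ZMod 2) : Prop :=
  (∀ y, ¬ badj m x y → a y = 0) ∧ (x.isLeft → ∑ y, a y = 0)

instance (x : B m) : DecidablePred (ok m x) := fun a => by unfold ok; infer_instance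

abbrev W := {p : B m × (B m → ZMod 2) // ok m p.1 p.2}

def GG : SimpleGraph (W m) where
  Adj p q := badj m p.1.1 q.1.1 ∧ p.1.2 q.1.1 = q.1.2 p.1.1
  symm := ⟨fun _ _ h => ⟨badj_symm m h.1, h.2.symm⟩⟩
  loopless := ⟨fun _ h => badj_irrefl m _ h.1⟩

def cc (p : W m) : B m := p.1.1

variable {m}

theorem ok_add {x : B m} {a b : B m → ZMod 2} (ha : ok m x a) (hb : ok m x b) :
    ok m x (a + b) :=
  ⟨fun y h => by simp [ha.1 y h, hb.1 y h],
    fun h => by simp [Finset.sum_add_distrib, ha.2 h, hb.2 h]⟩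

theorem ok_zero (x : B m) : ok m x 0 := ⟨fun _ _ => rfl, fun _ => by simp⟩

theorem aa (a b : B m → ZMod 2) : a + b + b = a := by
  funext y
  simp only [Pi.add_apply]
  generalize a y = s; generalize b y = r
  revert s r; decide

/-- translation of every gadget by an admissible label -/
def tr (ψ : B m → B m → ZMod 2) (h : ∀ x, ok m x (ψ x)) : W m ≃ W m where
  toFun p := ⟨(p.1.1, p.1.2 + ψ p.1.1), ok_add p.2 (h _)⟩
  invFun p := ⟨(p.1.1, p.1.2 + ψ p.1.1), ok_add p.2 (h _)⟩
  left_inv p := Subtype.ext (Prod.ext rfl (aa _ _))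
  right_inv p := Subtype.ext (Prod.ext rfl (aa _ _))

def trAut (ψ : B m → B m → ZMod 2) (h : ∀ x, ok m x (ψ x)) (hs : ∀ x y, ψ x y = ψ y x) :
    GG m ≃g GG m where
  toEquiv := tr ψ h
  map_rel_iff' := by
    intro p q
    show badj m p.1.1 q.1.1 ∧ p.1.2 q.1.1 + ψ p.1.1 q.1.1 = q.1.2 p.1.1 + ψ q.1.1 p.1.1 ↔ _
    rw [hs q.1.1, add_left_inj]
    rfl

/-- indicator of the edge `{s,t}` -/
def ed (s t : B m) (x y : B m) : ZMod 2 := if (x = s ∧ y = t) ∨ (x = t ∧ y = s) then 1 else 0

theorem ed_symm (s t x y : B m) : ed s t x y = ed s t y x := by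
  unfold ed
  congr 1
  apply propext; tauto

theorem ed_sum {s t : B m} (hst : s ≠ t) (x : B m) :
    ∑ y, ed s t x y = if x = s ∨ x = t then 1 else 0 := by
  by_cases h1 : x = s
  · subst h1; simp [ed, hst]
  · by_cases h2 : x = t
    · subst h2; simp [ed, h1]
    · simp [ed, h1, h2]

theorem ed_supp {s t : B m} (hst : badj m s t) (x y : B m) (h : ¬ badj m x y) :
    ed s t x y = 0 := by
  unfold ed
  rw [if_neg]
  rintro (⟨rfl, rfl⟩ | ⟨rfl, rfl⟩)
  · exact h hst
  · exact h (badj_symm m hst)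

theorem ed_off {s t x : B m} (h1 : x ≠ s) (h2 : x ≠ t) : ed s t x = 0 := by
  funext y; simp [ed, h1, h2]

/-- a symmetric labelling supported on edges, with prescribed parities at the left vertices -/
def Lab (φ : B m → B m → ZMod 2) (d : Fin (m + 2) → ZMod 2) : Prop :=
  (∀ x y, φ x y = φ y x) ∧ (∀ x y, ¬ badj m x y → φ x y = 0) ∧ ∀ x, ∑ y, φ (Sum.inl x) y = d x

theorem Lab.add {φ ψ : B m → B m → ZMod 2} {d e : Fin (m + 2) → ZMod 2} (h : Lab φ d)
    (h' : Lab ψ e) : Lab (φ + ψ) (d + e) :=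
  ⟨fun x y => by simp [h.1 x y, h'.1 x y], fun x y n => by simp [h.2.1 x y n, h'.2.1 x y n],
    fun x => by simp [Finset.sum_add_distrib, h.2.2, h'.2.2]⟩

theorem lab_ed {s t : B m} (hst : badj m s t) :
    Lab (ed s t) fun x => if Sum.inl x = s ∨ Sum.inl x = t then 1 else 0 :=
  ⟨ed_symm s t, ed_supp hst, fun x => ed_sum (fun e => badj_irrefl m s (by rw [← e] at hst; exact hst)) _⟩

theorem lab_zero : Lab (0 : B m → B m → ZMod 2) 0 :=
  ⟨fun _ _ => rfl, fun _ _ _ => rfl, fun _ => by simp⟩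

theorem Lab.ok {φ : B m → B m → ZMod 2} {d : Fin (m + 2) → ZMod 2} (h : Lab φ d) (x : B m)
    (hx : ∀ z, x = Sum.inl z → d z = 0) : ok m x (φ x) := by
  refine ⟨h.2.1 x, fun hl => ?_⟩
  cases x with
  | inl z => rw [h.2.2, hx z rfl]
  | inr b => simp at hl

theorem Lab.total {φ : B m → B m → ZMod 2} {d : Fin (m + 2) → ZMod 2} (h : Lab φ d) :
    ∑ x, d x = φ (Sum.inl 0) (Sum.inr false) + φ (Sum.inl 1) (Sum.inr true) := by
  have h1 : ∑ x : Fin (m + 2), ∑ y : Fin (m + 2), φ (Sum.inl x) (Sum.inl y) = 0 := by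
    rw [← Finset.sum_product']
    refine Finset.sum_involution (fun p _ => (p.2, p.1)) ?_ ?_ ?_ ?_
    · intro p _
      rw [h.1 (Sum.inl p.2)]
      generalize φ _ _ = s
      revert s; decide
    · intro p _ hp e
      apply hp
      apply h.2.1
      have : p.2 = p.1 := congrArg Prod.fst e
      simp [badj, this]
    · simp
    · simp
  have h2 : ∀ b : Bool, ∑ x : Fin (m + 2), φ (Sum.inl x) (Sum.inr b) =
      φ (Sum.inl (if b then 1 else 0)) (Sum.inr b) := fun b =>
    Finset.sum_eq_single _ (fun x _ hx => h.2.1 _ _ hx) (by simp)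
  simp only [← h.2.2, Fintype.sum_sum_type, Finset.sum_add_distrib, h1, zero_add]
  rw [Finset.sum_comm, Fintype.sum_bool, h2, h2, add_comm]
  rfl

theorem z2 (a : ZMod 2) : a = 0 ∨ a = 1 := by revert a; decide

theorem fix (z : B m) (d : Fin (m + 2) → ZMod 2) (hd : ∀ x, z = Sum.inl x → d x = 0) :
    ∃ ψ, Lab ψ d ∧ ψ z = 0 := by
  obtain ⟨b, h1, h2⟩ : ∃ b : Bool, z ≠ Sum.inr b ∧ z ≠ Sum.inl (if b then 1 else 0) := by
    rcases z with x | b
    · by_cases hx : x = 0
      · exact ⟨true, by simp, by simp [hx]⟩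
      · exact ⟨false, by simp, by simp [hx]⟩
    · exact ⟨!b, by simp, by simp⟩
  set h : Fin (m + 2) := if b then 1 else 0 with hh
  have hp : Lab (ed (Sum.inl h) (Sum.inr b)) (Pi.single h 1) := by
    have := lab_ed (s := Sum.inl h) (t := Sum.inr b) rfl
    convert! this using 1
    funext x; simp [Pi.single_apply]
  rw [← Finset.univ_sum_single d]
  refine Finset.sum_induction _ (fun d => ∃ ψ, Lab ψ d ∧ ψ z = 0) ?_ ⟨0, lab_zero, rfl⟩ ?_
  · rintro d e ⟨φ, a1, a2⟩ ⟨ψ, b1, b2⟩
    exact ⟨φ + ψ, a1.add b1, by simp [a2, b2]⟩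
  · intro x _
    rcases z2 (d x) with e | e
    · exact ⟨0, by simpa [e] using lab_zero, rfl⟩
    · have hz : z ≠ Sum.inl x := fun h => by rw [hd x h] at e; exact zero_ne_one e
      rw [e]
      by_cases hx : x = h
      · exact ⟨_, hx ▸ hp, ed_off h2 h1⟩
      · refine ⟨ed (Sum.inl x) (Sum.inl h) + ed (Sum.inl h) (Sum.inr b), ?_, ?_⟩
        · have := (lab_ed (s := Sum.inl x) (t := Sum.inl h) hx).add hp
          convert! this using 1
          funext y
          by_cases c1 : y = x
          · subst c1; simp [hx]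
          · by_cases c2 : y = h
            · subst c2; simp [c1]; rfl
            · simp [c1, c2]
        · simp [ed_off hz h2, ed_off h2 h1]

theorem trans (p q : W m) (h : cc m p = cc m q) :
    ∃ σ : GG m ≃g GG m, (∀ x, cc m (σ x) = cc m x) ∧ σ p = q := by
  obtain ⟨⟨x, a⟩, ha⟩ := p
  obtain ⟨⟨x', b⟩, hb⟩ := q
  obtain rfl : x = x' := h
  have hab : ok m x (a + b) := ok_add ha hb
  let ψ0 : B m → B m → ZMod 2 := fun u w =>
    if u = x then (a + b) w else if w = x then (a + b) u else 0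
  have l0 : Lab ψ0 fun y => ∑ w, ψ0 (Sum.inl y) w := by
    refine ⟨fun u w => ?_, fun u w n => ?_, fun _ => rfl⟩
    · by_cases c1 : u = x <;> by_cases c2 : w = x <;> simp [ψ0, c1, c2]
    · by_cases c1 : u = x
      · subst c1; simp only [ψ0, if_true]; exact hab.1 w n
      · by_cases c2 : w = x
        · subst c2; simp only [ψ0, c1, if_false, if_true]
          exact hab.1 u fun h => n (badj_symm m h)
        · simp [ψ0, c1, c2]
  obtain ⟨ψ1, l1, e1⟩ := fix x (fun y => ∑ w, ψ0 (Sum.inl y) w) (by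
    rintro y rfl
    simp only [ψ0, if_true]
    exact hab.2 rfl)
  have l := l0.add l1
  refine ⟨trAut (ψ0 + ψ1) (fun u => l.ok u fun z _ => ?_) l.1, fun _ => rfl, ?_⟩
  · simp only [Pi.add_apply]
    generalize ∑ w, ψ0 (Sum.inl z) w = s
    revert s; decide
  · refine Subtype.ext (Prod.ext rfl ?_)
    show a + (ψ0 x + ψ1 x) = b
    have : ψ0 x = a + b := by funext w; simp [ψ0]
    rw [e1, this, add_zero, add_comm a b, add_comm a, aa]

def v0 : W m := ⟨(Sum.inr false, 0), ok_zero _⟩
def w0 : W m := ⟨(Sum.inr true, 0), ok_zero _⟩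
def w1 : W m := ⟨(Sum.inr true, ed (Sum.inl 1) (Sum.inr true) (Sum.inr true)),
  ed_supp (s := Sum.inl 1) (t := Sum.inr true) rfl _, by simp⟩

theorem noAut (σ : GG m ≃g GG m)
    (hσ : ∀ x, stabilise (cc m) v0 (σ x) = stabilise (cc m) v0 x) : σ w0 ≠ w1 := by
  intro hw
  have hv : σ v0 = v0 := by
    have := hσ v0
    by_contra hne
    simp [stabilise, hne] at this
  have hc : ∀ x, cc m (σ x) = cc m x := by
    intro x
    by_cases hx : x = v0
    · rw [hx, hv]
    · have h2 : σ x ≠ v0 := fun h => hx (σ.injective (h.trans hv.symm))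
      simpa [stabilise, hx, h2] using hσ x
  let φ : B m → B m → ZMod 2 := fun x => (σ ⟨(x, 0), ok_zero x⟩).1.2
  have hok : ∀ x, ok m x (φ x) := fun x => by
    have h1 := (σ ⟨(x, 0), ok_zero x⟩).2
    have h2 : (σ ⟨(x, 0), ok_zero x⟩).1.1 = x := hc _
    rwa [h2] at h1
  have l : Lab φ 0 := by
    refine ⟨fun x y => ?_, fun x y n => (hok x).1 y n, fun x => (hok _).2 rfl⟩
    by_cases n : badj m x y
    · have h1 : (GG m).Adj ⟨(x, 0), ok_zero x⟩ ⟨(y, 0), ok_zero y⟩ := ⟨n, rfl⟩
      have h2 := (σ.map_adj_iff.2 h1).2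
      have e1 : (σ ⟨(x, 0), ok_zero x⟩).1.1 = x := hc _
      have e2 : (σ ⟨(y, 0), ok_zero y⟩).1.1 = y := hc _
      rwa [e1, e2] at h2
    · rw [(hok x).1 y n, (hok y).1 x fun h => n (badj_symm m h)]
  have t := l.total
  rw [l.1 (Sum.inl 0), l.1 (Sum.inl 1)] at t
  have e1 : φ (Sum.inr false) = 0 := congrArg (fun p : W m => p.1.2) hv
  have e2 : φ (Sum.inr true) = ed (Sum.inl 1) (Sum.inr true) (Sum.inr true) :=
    congrArg (fun p : W m => p.1.2) hw
  rw [e1, e2] at t
  simp [ed] at t

/-- the tuple entry `q` is the image of `p` under `φ`, away from the defect `z` -/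
def Im (φ : B m → B m → ZMod 2) (z : Fin (m + 2)) (p q : W m) : Prop :=
  p.1.1 ≠ Sum.inl z ∧ q.1 = (p.1.1, p.1.2 + φ p.1.1)

def Good (φ : B m → B m → ZMod 2) (z : Fin (m + 2)) : Prop :=
  Lab φ (Pi.single z 1) ∧ φ (Sum.inr false) = 0

def rr (n : ℕ) (S S' : Fin n → W m) : Prop := ∃ φ z, Good φ z ∧ ∀ i, Im φ z (S i) (S' i)

theorem extend {n : ℕ} (hn : n ≤ m) {S S' : Fin n → W m} (h : rr n S S') :
    ∃ β : W m ≃ W m, ∀ x, ∃ φ z, Good φ z ∧ (∀ i, Im φ z (S i) (S' i)) ∧ Im φ z x (β x) := by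
  obtain ⟨φ, z, ⟨l, hv⟩, hS⟩ := h
  obtain ⟨z', hz'⟩ : ∃ z' : Fin (m + 2), z' ≠ z ∧ ∀ i, (S i).1.1 ≠ Sum.inl z' := by
    by_contra hne
    push Not at hne
    let g : Option (Fin n) → Fin (m + 2) := fun o =>
      o.elim z fun i => Sum.elim id (fun _ => z) (S i).1.1
    have hg : Function.Surjective g := by
      intro y
      by_cases c : y = z
      · exact ⟨none, c.symm⟩
      · obtain ⟨i, hi⟩ := hne y c
        exact ⟨some i, by simp [g, hi]⟩
    have := Fintype.card_le_of_surjective g hg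
    simp at this
    omega
  have l1 : Lab (φ + ed (Sum.inl z) (Sum.inl z')) (Pi.single z' 1) := by
    have := l.add (lab_ed (s := Sum.inl z) (t := Sum.inl z') hz'.1.symm)
    convert! this using 1
    funext y
    by_cases c1 : y = z
    · subst c1; simp [hz'.1.symm]; rfl
    · by_cases c2 : y = z'
      · subst c2; simp [c1]
      · simp [c1, c2]
  let ψ : B m → B m → ZMod 2 := fun x =>
    if x = Sum.inl z then (φ + ed (Sum.inl z) (Sum.inl z')) x else φ x
  have hψ : ∀ x, ok m x (ψ x) := by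
    intro x
    by_cases c : x = Sum.inl z
    · simp only [ψ, c, if_true]
      refine l1.ok _ fun y hy => ?_
      cases hy
      simp [hz'.1.symm]
    · simp only [ψ, c, if_false]
      refine l.ok _ fun y hy => ?_
      have : y ≠ z := fun e => c (e ▸ hy)
      simp [this]
  refine ⟨tr ψ hψ, fun x => ?_⟩
  by_cases c : x.1.1 = Sum.inl z
  · refine ⟨_, z', ⟨l1, ?_⟩, fun i => ⟨hz'.2 i, ?_⟩, ?_, ?_⟩
    · simp [hv, ed_off]
    · rw [(hS i).2, Pi.add_apply φ, ed_off (hS i).1 (hz'.2 i), add_zero]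
    · rw [c]; simpa using hz'.1.symm
    · show (x.1.1, x.1.2 + ψ x.1.1) = _
      simp only [ψ, c, if_true]
  · refine ⟨φ, z, ⟨l, hv⟩, hS, c, ?_⟩
    show (x.1.1, x.1.2 + ψ x.1.1) = _
    simp only [ψ, c, if_false]

theorem zero_eq {k : ℕ} (S S' : Fin k → W m) (h : rr k S S') :
    wl (GG m) (stabilise (cc m) v0) k 0 S = wl (GG m) (stabilise (cc m) v0) k 0 S' := by
  obtain ⟨φ, z, ⟨l, hv⟩, hS⟩ := h
  have he : ∀ p q p' q' : W m, Im φ z p p' → Im φ z q q' → (p = q ↔ p' = q') := by
    intro p q p' q' h1 h2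
    constructor
    · rintro rfl; exact Subtype.ext (h1.2.trans h2.2.symm)
    · rintro rfl
      have := h1.2.symm.trans h2.2
      have e1 : p.1.1 = q.1.1 := (Prod.ext_iff.1 this).1
      have e2 : p.1.2 + φ p.1.1 = q.1.2 + φ q.1.1 := congrArg Prod.snd this
      rw [e1, add_left_inj] at e2
      exact Subtype.ext (Prod.ext e1 e2)
  refine Prod.ext ?_ ?_
  · funext a b
    refine Prod.ext (propext (he _ _ _ _ (hS a) (hS b))) (propext ?_)
    show badj m _ _ ∧ _ ↔ badj m _ _ ∧ _
    rw [(hS a).2, (hS b).2]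
    simp only [Pi.add_apply]
    rw [l.1 (S b).1.1, add_left_inj]
  · funext a
    have h0 : Im φ z v0 v0 := ⟨by simp [v0], by simp [v0, hv]⟩
    have h1 := he _ _ _ _ (hS a) h0
    have h2 : cc m (S' a) = cc m (S a) := (Prod.ext_iff.1 (hS a).2).1
    show stabilise (cc m) v0 (S a) = stabilise (cc m) v0 (S' a)
    simp only [stabilise, h1, h2]

theorem same (j : ℕ) (hj : 1 + j ≤ m) :
    vertexColour (GG m) (stabilise (cc m) v0) j w0 =
      vertexColour (GG m) (stabilise (cc m) v0) j w1 := by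
  refine down_eq 1 rr j _ ?_ ?_ _ _ ?_
  · intro n hn S S' h
    obtain ⟨β, hβ⟩ := extend (by omega) h
    refine ⟨β, fun x => ?_⟩
    obtain ⟨φ, z, g, h1, h2⟩ := hβ x
    refine ⟨φ, z, g, fun i => ?_⟩
    induction i using Fin.lastCases with
    | last => simpa using h2
    | cast i => simpa using h1 i
  · intro S S' h
    refine wl_eq _ _ (rr (1 + j)) zero_eq ?_ _ S S' h
    intro S S' h
    obtain ⟨β, hβ⟩ := extend hj h
    refine ⟨β, fun x i => ?_⟩
    obtain ⟨φ, z, g, h1, h2⟩ := hβ x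
    refine ⟨φ, z, g, fun i' => ?_⟩
    by_cases c : i' = i
    · subst c; simpa using h2
    · simpa [c] using h1 i'
  · refine ⟨ed (Sum.inl 1) (Sum.inr true), 1, ⟨?_, ed_off (by simp) (by simp)⟩, fun _ =>
      ⟨by simp [w0], by simp [w0, w1]⟩⟩
    have := lab_ed (m := m) (s := Sum.inl 1) (t := Sum.inr true) rfl
    convert! this using 1
    funext x; simp [Pi.single_apply]

end construction

/-- For every dimension `k = 1 + j` there is a coloured graph refined to its orbits such that some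
vertex-stabilised graph is not. -/
theorem result (j : ℕ) : ∃ (V C : Type) (_ : Fintype V) (G : SimpleGraph V) (c : V → C) (v : V),
    RefinesToOrbits G c j ∧ ¬ RefinesToOrbits G (stabilise c v) j := by
  refine ⟨W (1 + j), B (1 + j), inferInstance, GG _, cc _, v0, fun p q => ⟨fun h => ?_, ?_⟩,
    fun h => ?_⟩
  · exact trans p q (vc_col _ _ j p q h)
  · rintro ⟨σ, hσ, rfl⟩
    exact vc_aut _ _ j σ hσ p
  · obtain ⟨σ, hσ, e⟩ := (h w0 w1).1 (same j le_rfl)
    exact noAut σ hσ e

end Pool.Agent.Results.MP_493565_co.NotRecursive
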